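import Pool.Agent.Helper43.AX.St

/-!
# AX, GR: kill relation 1
-/

set_option autoImplicit false

namespace Pool.Agent.Helper9.AX

open Pool.Agent.Helper43.AX Pool.Agent.Helper43.GD

private theorem lm {G : Type} [Group G] (S : Subgroup G) (k : G) {g h : G}
    (e : (QuotientGroup.mk g : G ⧸ S) = QuotientGroup.mk h) :
    (QuotientGroup.mk (k * g) : G ⧸ S) = QuotientGroup.mk (k * h) := by
  rw [QuotientGroup.eq] at e ⊢
  have h1 : (k * g)⁻¹ * (k * h) = g⁻¹ * h := by group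
  rw [h1]
  exact e

theorem hGR (hPT : StPT) (hVC : StVC) : StGR := by
  intro p q G _ a b t l L _ x E σ hc
  obtain ⟨_, hb, htc, _, he, _⟩ := hPT p q G a b t l L x E σ hc
  obtain ⟨_, _, _, _, hcomm⟩ := hVC p q G a b t l L x E σ hc
  have hadd := hc.rd.add
  have hone := hc.rd.one
  have hE0 : E 0 = 1 := by
    have h := hadd 0 0
    rw [add_zero] at h
    exact (mul_eq_left.1 h.symm)
  have hneg : ∀ c, E (-c) = (E c)⁻¹ := by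
    intro c
    have h := hadd (-c) c
    rw [neg_add_cancel, hE0] at h
    exact eq_inv_of_mul_eq_one_left h.symm
  have hb0 : cj b t 0 = b := by
    unfold cj
    simp
  have hb1 : cj b t 1 = t⁻¹ * b * t := by
    unfold cj
    simp
  -- b⁻¹ in terms of v
  have hbinv : b⁻¹ = a * (a * b * a)⁻¹ * a := by group
  -- passage: b⁻¹ E(c) v ~ E(1) v⁻¹ E(1 + c) v
  have step : ∀ (c : L), b⁻¹ * (E c * (a * b * a))
      = E 1 * ((a * b * a)⁻¹ * (E (1 + c) * (a * b * a))) := by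
    intro c
    rw [hadd 1 c, hone]
    nth_rewrite 1 [hbinv]
    group
  have hx1 : ((x ^ (((q ^ 2 : ℕ) : ℤ)) : Lˣ) : L) = 1 + (x : L) := by
    rw [zpow_natCast, Units.val_pow_eq_pow_val, hc.rd.xm]
    ring
  have hx2 : ((x ^ (((q ^ 2 : ℕ) : ℤ) - 1) : Lˣ) : L) = 1 + ((x ^ (-1 : ℤ) : Lˣ) : L) := by
    rw [sub_eq_add_neg, zpow_add, Units.val_mul, hx1, add_mul, one_mul, zpow_neg_one,
      Units.mul_inv]
    ring
  -- first side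
  have e1 : (QuotientGroup.mk ((cj b t 0)⁻¹ * (cj b t 1)⁻¹) : G ⧸ P t l E)
      = QuotientGroup.mk (E (1 - ((x ^ (-((q ^ p : ℕ) : ℤ) * ((q ^ 2 : ℕ) : ℤ)) : Lˣ) : L))
          * (a * b * a)) := by
    have h1 : (QuotientGroup.mk ((cj b t 1)⁻¹) : G ⧸ P t l E)
        = QuotientGroup.mk (E ((x ^ (1 : ℤ) : Lˣ) : L) * (a * b * a)) := by
      rw [QuotientGroup.eq, inv_inv]
      exact hb 1
    have h2 := lm (P t l E) (cj b t 0)⁻¹ h1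
    rw [h2, hb0, step]
    have h3 : (1 : L) + ((x ^ (1 : ℤ) : Lˣ) : L) = ((x ^ (((q ^ 2 : ℕ) : ℤ)) : Lˣ) : L) := by
      rw [hx1, zpow_one]
    rw [h3]
    have h4 : (QuotientGroup.mk ((a * b * a)⁻¹ *
          (E ((x ^ (((q ^ 2 : ℕ) : ℤ)) : Lˣ) : L) * (a * b * a))) : G ⧸ P t l E)
        = QuotientGroup.mk (E (-((x ^ (-((q ^ p : ℕ) : ℤ) * ((q ^ 2 : ℕ) : ℤ)) : Lˣ) : L))
          * (a * b * a)) := by
      rw [QuotientGroup.eq]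
      exact he _
    have h5 := lm (P t l E) (E 1) h4
    rw [h5, ← mul_assoc, ← hadd, ← sub_eq_add_neg]
  -- second side
  have e2 : (QuotientGroup.mk ((cj b t 1)⁻¹ * (cj b t 0)⁻¹) : G ⧸ P t l E)
      = QuotientGroup.mk (E ((x : L) -
          ((x ^ (1 - ((q ^ p : ℕ) : ℤ) * (((q ^ 2 : ℕ) : ℤ) - 1)) : Lˣ) : L)) * (a * b * a)) := by
    have h1 : (QuotientGroup.mk ((cj b t 0)⁻¹) : G ⧸ P t l E)
        = QuotientGroup.mk (E ((x ^ (0 : ℤ) : Lˣ) : L) * (a * b * a)) := by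
      rw [QuotientGroup.eq, inv_inv]
      exact hb 0
    have h2 := lm (P t l E) (cj b t 1)⁻¹ h1
    have h3 : (cj b t 1)⁻¹ * (E ((x ^ (0 : ℤ) : Lˣ) : L) * (a * b * a))
        = (t⁻¹ * b⁻¹) * (t ^ (1 : ℤ) * (E 1 * (a * b * a))) := by
      rw [hb1, zpow_zero, Units.val_one, zpow_one]
      group
    have h4 : (QuotientGroup.mk (t ^ (1 : ℤ) * (E 1 * (a * b * a))) : G ⧸ P t l E)
        = QuotientGroup.mk (E (((x ^ (-1 : ℤ) : Lˣ) : L) * 1) * (a * b * a)) := by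
      rw [QuotientGroup.eq]
      exact htc 1 1
    have h5 := lm (P t l E) (t⁻¹ * b⁻¹) h4
    have h6 : t⁻¹ * b⁻¹ * (E (((x ^ (-1 : ℤ) : Lˣ) : L) * 1) * (a * b * a))
        = t⁻¹ * (E 1 * ((a * b * a)⁻¹ *
            (E ((x ^ (((q ^ 2 : ℕ) : ℤ) - 1) : Lˣ) : L) * (a * b * a)))) := by
      rw [mul_one, hx2, ← step]
      group
    have h7 : (QuotientGroup.mk ((a * b * a)⁻¹ *
          (E ((x ^ (((q ^ 2 : ℕ) : ℤ) - 1) : Lˣ) : L) * (a * b * a))) : G ⧸ P t l E)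
        = QuotientGroup.mk (E (-((x ^ (-((q ^ p : ℕ) : ℤ) * (((q ^ 2 : ℕ) : ℤ) - 1)) : Lˣ) : L))
          * (a * b * a)) := by
      rw [QuotientGroup.eq]
      exact he _
    have h8 := lm (P t l E) t⁻¹ (lm (P t l E) (E 1) h7)
    have h9 : t⁻¹ * (E 1 * (E (-((x ^ (-((q ^ p : ℕ) : ℤ) * (((q ^ 2 : ℕ) : ℤ) - 1)) : Lˣ) : L))
          * (a * b * a)))
        = t ^ (-1 : ℤ) * (E (1 - ((x ^ (-((q ^ p : ℕ) : ℤ) * (((q ^ 2 : ℕ) : ℤ) - 1)) : Lˣ) : L))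
          * (a * b * a)) := by
      generalize ((x ^ (-((q ^ p : ℕ) : ℤ) * (((q ^ 2 : ℕ) : ℤ) - 1)) : Lˣ) : L) = c
      rw [zpow_neg_one, sub_eq_add_neg, hadd]
      group
    have h10 : (QuotientGroup.mk (t ^ (-1 : ℤ) *
          (E (1 - ((x ^ (-((q ^ p : ℕ) : ℤ) * (((q ^ 2 : ℕ) : ℤ) - 1)) : Lˣ) : L))
          * (a * b * a))) : G ⧸ P t l E)
        = QuotientGroup.mk (E (((x ^ (-(-1 : ℤ)) : Lˣ) : L) *
            (1 - ((x ^ (-((q ^ p : ℕ) : ℤ) * (((q ^ 2 : ℕ) : ℤ) - 1)) : Lˣ) : L)))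
          * (a * b * a)) := by
      rw [QuotientGroup.eq]
      exact htc (-1) _
    have h11 : ((x ^ (-(-1 : ℤ)) : Lˣ) : L) *
            (1 - ((x ^ (-((q ^ p : ℕ) : ℤ) * (((q ^ 2 : ℕ) : ℤ) - 1)) : Lˣ) : L))
        = (x : L) - ((x ^ (1 - ((q ^ p : ℕ) : ℤ) * (((q ^ 2 : ℕ) : ℤ) - 1)) : Lˣ) : L) := by
      rw [neg_neg, zpow_one, mul_sub, mul_one, sub_eq_add_neg (1 : ℤ), zpow_add, zpow_one,
        Units.val_mul, neg_mul]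
    rw [h2, h3, h5, h6, h8, h9, h10, h11]
  have e3 : (cj b t 0)⁻¹ * (cj b t 1)⁻¹ = (cj b t 1)⁻¹ * (cj b t 0)⁻¹ := by
    rw [← mul_inv_rev, ← mul_inv_rev, hcomm]
  rw [e3, e2, QuotientGroup.eq] at e1
  unfold InK
  have h12 : (a * b * a)⁻¹ * E (1 - ((x ^ (-((q ^ p : ℕ) : ℤ) * ((q ^ 2 : ℕ) : ℤ)) : Lˣ) : L)
        - (x : L) + ((x ^ (1 - ((q ^ p : ℕ) : ℤ) * (((q ^ 2 : ℕ) : ℤ) - 1)) : Lˣ) : L))
        * (a * b * a)
      = (E ((x : L) - ((x ^ (1 - ((q ^ p : ℕ) : ℤ) * (((q ^ 2 : ℕ) : ℤ) - 1)) : Lˣ) : L))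
            * (a * b * a))⁻¹ *
          (E (1 - ((x ^ (-((q ^ p : ℕ) : ℤ) * ((q ^ 2 : ℕ) : ℤ)) : Lˣ) : L)) * (a * b * a)) := by
    have h13 : (1 : L) - ((x ^ (-((q ^ p : ℕ) : ℤ) * ((q ^ 2 : ℕ) : ℤ)) : Lˣ) : L)
        - (x : L) + ((x ^ (1 - ((q ^ p : ℕ) : ℤ) * (((q ^ 2 : ℕ) : ℤ) - 1)) : Lˣ) : L)
        = -((x : L) - ((x ^ (1 - ((q ^ p : ℕ) : ℤ) * (((q ^ 2 : ℕ) : ℤ) - 1)) : Lˣ) : L))
          + (1 - ((x ^ (-((q ^ p : ℕ) : ℤ) * ((q ^ 2 : ℕ) : ℤ)) : Lˣ) : L)) := by ring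
    rw [h13, hadd, hneg]
    group
  rw [h12]
  exact e1

end Pool.Agent.Helper9.AX
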